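import Mathlib

set_option autoImplicit false

/-!
# Ramsey equivalence of comparable graphs is inherited by larger numbers of colours

If two graphs, one of which is a subgraph of the other, are Ramsey equivalent in `r` colours, then
they are Ramsey equivalent in `q` colours for every `q ≥ r`; hence the same is true for graphs that
are joined by a chain of such pairs.
-/

namespace Pool.Agent.Results.MP_781e3b_co.ComparablePairs

open SimpleGraph

/-- The graph formed by the edges of `G` of colour `i`. -/
def colourClass {V : Type} {q : ℕ} (G : SimpleGraph V) (c : Sym2 V → Fin q) (i : Fin q) :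
    SimpleGraph V :=
  SimpleGraph.fromEdgeSet {e | e ∈ G.edgeSet ∧ c e = i}

/-- `G → (H)_q`: every colouring of the edges of `G` with `q` colours contains a monochromatic
subgraph (not necessarily induced) isomorphic to `H`. -/
def Arrows {V W : Type} (G : SimpleGraph V) (H : SimpleGraph W) (q : ℕ) : Prop :=
  ∀ c : Sym2 V → Fin q, ∃ i : Fin q, H ⊑ colourClass G c i

/-- `H₁` and `H₂` are Ramsey equivalent in `q` colours: `G → (H₁)_q` if and only if `G → (H₂)_q`,
for every finite graph `G`. -/
def Equivalent (q : ℕ) {W₁ W₂ : Type} (H₁ : SimpleGraph W₁) (H₂ : SimpleGraph W₂) : Prop :=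
  ∀ (n : ℕ) (G : SimpleGraph (Fin n)), Arrows G H₁ q ↔ Arrows G H₂ q

/-- A finite graph, on the vertex set `Fin n` for some `n`. -/
abbrev Gr := Σ n : ℕ, SimpleGraph (Fin n)

/-- `A` is (isomorphic to) a subgraph of `B` and they are Ramsey equivalent in `r` colours. -/
def Link (r : ℕ) (A B : Gr) : Prop := A.2 ⊑ B.2 ∧ Equivalent r A.2 B.2

lemma colourClass_le {V : Type} {q : ℕ} (G : SimpleGraph V) (c : Sym2 V → Fin q) (i : Fin q) :
    colourClass G c i ≤ G := by
  intro u v h
  rw [colourClass, fromEdgeSet_adj] at h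
  exact h.1.1

/-- The induction step. -/
lemma step {W₁ W₂ : Type} {H₁ : SimpleGraph W₁} {H₂ : SimpleGraph W₂} {r : ℕ} (hr : 1 ≤ r)
    (hsub : H₁ ⊑ H₂) (heq : Equivalent r H₁ H₂) : Equivalent (r + 1) H₁ H₂ := by
  intro n G
  constructor
  swap
  · intro h c
    obtain ⟨i, hi⟩ := h c
    exact ⟨i, hsub.trans hi⟩
  intro h
  by_contra hcon
  unfold Arrows at hcon
  simp only [not_forall, not_exists] at hcon
  obtain ⟨c, hc⟩ := hcon
  -- first recolouring
  have key : ∀ (c : Sym2 (Fin n) → Fin (r + 1)) (j : Fin (r + 1)),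
      (∀ i, i ≠ j → ¬ H₂ ⊑ colourClass G c i) →
      ∃ c' : Sym2 (Fin n) → Fin (r + 1), (∀ i, i ≠ j → ¬ H₁ ⊑ colourClass G c' i) ∧
        colourClass G c' j = colourClass G c j := by
    intro c j hc
    set G' : SimpleGraph (Fin n) := SimpleGraph.fromEdgeSet {e | e ∈ G.edgeSet ∧ c e ≠ j} with hG'
    have hGe : ∀ e : Sym2 (Fin n), e ∈ G'.edgeSet ↔ e ∈ G.edgeSet ∧ c e ≠ j := by
      intro e
      rw [hG', edgeSet_fromEdgeSet, Set.mem_sdiff, Set.mem_ofPred_eq]
      constructor
      · exact fun h => h.1
      · intro h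
        exact ⟨h, fun hd => G.not_isDiag_of_mem_edgeSet h.1 hd⟩
    have hn : ¬ Arrows G' H₂ r := by
      intro hA
      -- the colouring with the colour `j` left out
      have hr0 : 0 < r := hr
      let d : Sym2 (Fin n) → Fin r := fun e =>
        if h : c e ≠ j then (finSuccAboveEquiv j).symm ⟨c e, h⟩ else ⟨0, hr0⟩
      obtain ⟨i, hi⟩ := hA d
      refine hc (j.succAbove i) (Fin.succAbove_ne j i) (hi.trans ?_)
      refine IsContained.of_le ?_
      intro u v huv
      rw [colourClass, fromEdgeSet_adj] at huv ⊢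
      obtain ⟨⟨h1, h2⟩, h3⟩ := huv
      rw [hGe] at h1
      refine ⟨⟨h1.1, ?_⟩, h3⟩
      have h4 : d s(u, v) = (finSuccAboveEquiv j).symm ⟨c s(u, v), h1.2⟩ := dif_pos h1.2
      rw [h4, Equiv.symm_apply_eq] at h2
      have h5 := congrArg Subtype.val h2
      exact h5
    rw [← heq n G'] at hn
    unfold Arrows at hn
    simp only [not_forall, not_exists] at hn
    obtain ⟨d, hd⟩ := hn
    refine ⟨fun e => if c e = j then j else j.succAbove (d e), ?_, ?_⟩
    · intro i hi hcopy
      obtain ⟨k, rfl⟩ : ∃ k, j.succAbove k = i := Fin.exists_succAbove_eq hi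
      refine hd k (hcopy.trans (IsContained.of_le ?_))
      intro u v huv
      rw [colourClass, fromEdgeSet_adj] at huv ⊢
      obtain ⟨⟨h1, h2⟩, h3⟩ := huv
      by_cases hcj : c s(u, v) = j
      · simp only [hcj, if_true] at h2
        exact absurd h2.symm (Fin.succAbove_ne j k)
      · simp only [hcj, if_false] at h2
        exact ⟨⟨(hGe _).2 ⟨h1, hcj⟩, Fin.succAbove_right_injective h2⟩, h3⟩
    · unfold colourClass
      congr 1
      ext e
      simp only [Set.mem_ofPred_eq]
      refine and_congr_right fun _ => ?_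
      by_cases hcj : c e = j
      · simp [hcj]
      · simp only [hcj, if_false, iff_false]
        exact Fin.succAbove_ne j _
  obtain ⟨c₁, h1, h1'⟩ := key c (Fin.last r) (fun i _ => hc i)
  obtain ⟨c₂, h2, h2'⟩ := key c₁ 0 (by
    intro i _
    by_cases hi : i = Fin.last r
    · rw [hi, h1']; exact hc _
    · exact fun hH => h1 i hi (hsub.trans hH))
  obtain ⟨i, hi⟩ := h c₂
  by_cases h0 : i = 0
  · rw [h0, h2'] at hi
    refine h1 0 ?_ hi
    intro h3
    have := congrArg Fin.val h3
    simp at this
    omega
  · exact h2 i h0 hi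

/-- Let `r ≥ 1`. If two finite graphs are joined by a chain of finite graphs in which, of any two
consecutive ones, one is a subgraph of the other and they are Ramsey equivalent in `r` colours, then
they are Ramsey equivalent in `q` colours for every `q ≥ r`. -/
theorem result (r q : ℕ) (hr : 1 ≤ r) (hq : r ≤ q) (A B : Gr)
    (h : Relation.EqvGen (Link r) A B) : Equivalent q A.2 B.2 := by
  induction h with
  | rel A B hAB =>
    obtain ⟨hsub, heq⟩ := hAB
    induction q, hq using Nat.le_induction with
    | base => exact heq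
    | succ k hk ih => exact step (le_trans hr hk) hsub ih
  | refl A => exact fun n G => Iff.rfl
  | symm A B _ ih => exact fun n G => (ih n G).symm
  | trans A B C _ _ ih1 ih2 => exact fun n G => (ih1 n G).trans (ih2 n G)

end Pool.Agent.Results.MP_781e3b_co.ComparablePairs
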